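import Pool.Agent.Helper24.GT.St.G1

namespace Helper24.GT

private theorem GG_cnt_pos {V : Type*} [Fintype V] {P : V → Prop} {u : V} (h : P u) :
    1 ≤ cnt P := by
  classical
  unfold cnt
  rw [Nat.one_le_iff_ne_zero, Finset.card_ne_zero]
  exact ⟨u, by simp [h]⟩

private theorem GG_cnt_le {V : Type*} [Fintype V] (P Q R : V → Prop)
    (h : ∀ u, P u → Q u ∨ R u) : cnt P ≤ cnt Q + cnt R := by
  classical
  unfold cnt
  refine le_trans (Finset.card_le_card ?_) (Finset.card_union_le _ _)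
  intro u hu
  rw [Finset.mem_filter] at hu
  rw [Finset.mem_union, Finset.mem_filter, Finset.mem_filter]
  rcases h u hu.2 with h1 | h1
  · exact Or.inl ⟨Finset.mem_univ _, h1⟩
  · exact Or.inr ⟨Finset.mem_univ _, h1⟩

/-- A non-pointed vertex without a south-west neighbour has a north-west and a south-east
neighbour. -/
private theorem GG_st_of_no_sw {V : Type*} {X Y : V → ℝ} (hX : Function.Injective X)
    (hY : Function.Injective Y) {G : SimpleGraph V} {v : V} (hv : ¬ Pointed X Y G v)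
    (h : ¬ ∃ u, G.Adj v u ∧ X u < X v ∧ Y u < Y v) :
    (∃ u, G.Adj v u ∧ X u < X v ∧ Y v < Y u) ∧ ∃ u, G.Adj v u ∧ X v < X u ∧ Y u < Y v := by
  obtain ⟨u, hu, hux⟩ := exists_lt_of_not_pointed hX hv
  obtain ⟨w, hw, hwy⟩ := exists_below_of_not_pointed hY hv
  constructor
  · refine ⟨u, hu, hux, ?_⟩
    rcases lt_trichotomy (Y u) (Y v) with h1 | h1 | h1
    · exact absurd ⟨u, hu, hux, h1⟩ h
    · exact absurd (hY h1).symm hu.ne
    · exact h1
  · refine ⟨w, hw, ?_, hwy⟩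
    rcases lt_trichotomy (X w) (X v) with h1 | h1 | h1
    · exact absurd ⟨w, hw, h1, hwy⟩ h
    · exact absurd (hX h1).symm hw.ne
    · exact h1

/-- A non-pointed vertex without a north-east neighbour has a north-west and a south-east
neighbour. -/
private theorem GG_st_of_no_ne {V : Type*} {X Y : V → ℝ} (hX : Function.Injective X)
    (hY : Function.Injective Y) {G : SimpleGraph V} {v : V} (hv : ¬ Pointed X Y G v)
    (h : ¬ ∃ u, G.Adj v u ∧ X v < X u ∧ Y v < Y u) :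
    (∃ u, G.Adj v u ∧ X u < X v ∧ Y v < Y u) ∧ ∃ u, G.Adj v u ∧ X v < X u ∧ Y u < Y v := by
  obtain ⟨u, hu, hux⟩ := exists_gt_of_not_pointed hX hv
  obtain ⟨w, hw, hwy⟩ := exists_above_of_not_pointed hY hv
  constructor
  · refine ⟨w, hw, ?_, hwy⟩
    rcases lt_trichotomy (X w) (X v) with h1 | h1 | h1
    · exact h1
    · exact absurd (hX h1).symm hw.ne
    · exact absurd ⟨w, hw, h1, hwy⟩ h
  · refine ⟨u, hu, hux, ?_⟩
    rcases lt_trichotomy (Y u) (Y v) with h1 | h1 | h1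
    · exact h1
    · exact absurd (hY h1).symm hu.ne
    · exact absurd ⟨u, hu, hux, h1⟩ h

/-- **Cluster lemma** (one layer).  `N` is a set of non-pointed vertices such that every
neighbour of a vertex of `N` lies to the left of all of `N` or to the right of all of `N`, and
below all of `N` or above all of `N`. -/
theorem cluster {V : Type*} [Fintype V] {X Y : V → ℝ} (hX : Function.Injective X)
    (hY : Function.Injective Y) (hgp : GP X Y) {G : SimpleGraph V} (hG : Pln X Y G)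
    (N : Finset V) (hN : ∀ v ∈ N, ¬ Pointed X Y G v)
    (hNX : ∀ v ∈ N, ∀ u, G.Adj v u → (∀ w ∈ N, X u < X w) ∨ (∀ w ∈ N, X w < X u))
    (hNY : ∀ v ∈ N, ∀ u, G.Adj v u → (∀ w ∈ N, Y u < Y w) ∨ (∀ w ∈ N, Y w < Y u)) :
    3 * N.card ≤ 6 + ∑ v ∈ N, (3 * cnt (fun u => G.Adj v u ∧ X u < X v ∧ Y u < Y v) +
      cnt (fun u => G.Adj v u ∧ X u < X v ∧ Y v < Y u) +
      cnt (fun u => G.Adj v u ∧ X v < X u ∧ Y u < Y v)) := by
  classical
  -- positions relative to one vertex of `N` are positions relative to all of `N`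
  have left : ∀ v ∈ N, ∀ u, G.Adj v u → X u < X v → ∀ w ∈ N, X u < X w := by
    intro v hv u hu h w hw
    rcases hNX v hv u hu with h1 | h1
    · exact h1 w hw
    · exact absurd (h1 v hv) (lt_asymm h)
  have right : ∀ v ∈ N, ∀ u, G.Adj v u → X v < X u → ∀ w ∈ N, X w < X u := by
    intro v hv u hu h w hw
    rcases hNX v hv u hu with h1 | h1
    · exact absurd (h1 v hv) (lt_asymm h)
    · exact h1 w hw
  have down : ∀ v ∈ N, ∀ u, G.Adj v u → Y u < Y v → ∀ w ∈ N, Y u < Y w := by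
    intro v hv u hu h w hw
    rcases hNY v hv u hu with h1 | h1
    · exact h1 w hw
    · exact absurd (h1 v hv) (lt_asymm h)
  have up : ∀ v ∈ N, ∀ u, G.Adj v u → Y v < Y u → ∀ w ∈ N, Y w < Y u := by
    intro v hv u hu h w hw
    rcases hNY v hv u hu with h1 | h1
    · exact absurd (h1 v hv) (lt_asymm h)
    · exact h1 w hw
  -- no south-west neighbour above a path, no north-east neighbour below a path
  have noSW : ∀ v ∈ N, ∀ w ∈ N, v ≠ w → ∀ x₁ x₂, G.Adj v x₁ → G.Adj v x₂ → X x₁ < X v →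
      Y v < Y x₁ → X v < X x₂ → Y x₂ < Y v → pth X Y x₁ v x₂ (X w) < Y w →
      ¬ ∃ u, G.Adj w u ∧ X u < X w ∧ Y u < Y w := by
    intro v hv w hw hvw x₁ x₂ a1 a2 p1 p2 p3 p4 hab
    rintro ⟨u, hu, q1, q2⟩
    exact no_sw_of_above hX hG hvw a1 a2 hu p1 (left v hv x₁ a1 p1 w hw) p3
      (right v hv x₂ a2 p3 w hw) p2 (up v hv x₁ a1 p2 w hw) p4 (down v hv x₂ a2 p4 w hw)
      (left w hw u hu q1 v hv) q1 (down w hw u hu q2 v hv) q2 hab
  have noNE : ∀ v ∈ N, ∀ w ∈ N, v ≠ w → ∀ x₁ x₂, G.Adj v x₁ → G.Adj v x₂ → X x₁ < X v →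
      Y v < Y x₁ → X v < X x₂ → Y x₂ < Y v → Y w < pth X Y x₁ v x₂ (X w) →
      ¬ ∃ u, G.Adj w u ∧ X w < X u ∧ Y w < Y u := by
    intro v hv w hw hvw x₁ x₂ a1 a2 p1 p2 p3 p4 hab
    rintro ⟨u, hu, q1, q2⟩
    exact no_ne_of_below hX hG hvw a1 a2 hu p1 (left v hv x₁ a1 p1 w hw) p3
      (right v hv x₂ a2 p3 w hw) p2 (up v hv x₁ a1 p2 w hw) p4 (down v hv x₂ a2 p4 w hw)
      (right w hw u hu q1 v hv) q1 (up w hw u hu q2 v hv) q2 hab
  have hne : ∀ v ∈ N, ∀ w ∈ N, v ≠ w → ∀ x₁ x₂, G.Adj v x₁ → G.Adj v x₂ → X x₁ < X v →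
      X v < X x₂ → pth X Y x₁ v x₂ (X w) ≠ Y w := by
    intro v hv w hw hvw x₁ x₂ a1 a2 p1 p3
    refine pth_ne hgp hvw p1 p3 ?_ ?_
    · intro h
      have := left v hv x₁ a1 p1 w hw
      rw [h] at this
      exact lt_irrefl _ this
    · intro h
      have := right v hv x₂ a2 p3 w hw
      rw [h] at this
      exact lt_irrefl _ this
  by_cases hst : ∃ v ∈ N, (∃ u, G.Adj v u ∧ X u < X v ∧ Y v < Y u) ∧
      ∃ u, G.Adj v u ∧ X v < X u ∧ Y u < Y v
  · -- all vertices of `N` have a north-west and a south-east neighbour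
    obtain ⟨v₀, hv₀, ⟨x₁, a1, p1, p2⟩, ⟨x₂, a2, p3, p4⟩⟩ := hst
    have hall : ∀ w ∈ N, (∃ u, G.Adj w u ∧ X u < X w ∧ Y w < Y u) ∧
        ∃ u, G.Adj w u ∧ X w < X u ∧ Y u < Y w := by
      intro w hw
      by_cases hvw : v₀ = w
      · subst hvw
        exact ⟨⟨x₁, a1, p1, p2⟩, ⟨x₂, a2, p3, p4⟩⟩
      · rcases lt_or_gt_of_ne (hne v₀ hv₀ w hw hvw x₁ x₂ a1 a2 p1 p3) with h | h
        · exact GG_st_of_no_sw hX hY (hN w hw)
            (noSW v₀ hv₀ w hw hvw x₁ x₂ a1 a2 p1 p2 p3 p4 h)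
        · exact GG_st_of_no_ne hX hY (hN w hw)
            (noNE v₀ hv₀ w hw hvw x₁ x₂ a1 a2 p1 p2 p3 p4 h)
    -- two vertices of `N`
    have key : ∀ v ∈ N, ∀ w ∈ N, X v < X w →
        (¬ (∃ u, G.Adj v u ∧ X u < X v ∧ Y u < Y v) ∧
          ¬ ∃ u, G.Adj w u ∧ X w < X u ∧ Y w < Y u) ∨
        (¬ (∃ u, G.Adj v u ∧ X v < X u ∧ Y v < Y u) ∧
          ¬ ∃ u, G.Adj w u ∧ X u < X w ∧ Y u < Y w) := by
      intro v hv w hw hvw
      have hvw' : v ≠ w := fun h => by rw [h] at hvw; exact lt_irrefl _ hvw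
      obtain ⟨⟨y₁, b1, q1, q2⟩, ⟨y₂, b2, q3, q4⟩⟩ := hall v hv
      obtain ⟨⟨z₁, c1, r1, r2⟩, ⟨z₂, c2, r3, r4⟩⟩ := hall w hw
      have hiff := above_iff_below hX hgp hG hvw b1 b2 c1 c2 q1 (right v hv y₂ b2 q3 w hw)
        (left w hw z₁ c1 r1 v hv) r3
      rcases lt_or_gt_of_ne (hne w hw v hv hvw'.symm z₁ z₂ c1 c2 r1 r3) with h | h
      · left
        exact ⟨noSW w hw v hv hvw'.symm z₁ z₂ c1 c2 r1 r2 r3 r4 h,
          noNE v hv w hw hvw' y₁ y₂ b1 b2 q1 q2 q3 q4 (hiff.1 h)⟩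
      · right
        refine ⟨noNE w hw v hv hvw'.symm z₁ z₂ c1 c2 r1 r2 r3 r4 h, ?_⟩
        refine noSW v hv w hw hvw' y₁ y₂ b1 b2 q1 q2 q3 q4 ?_
        rcases lt_or_gt_of_ne (hne v hv w hw hvw' y₁ y₂ b1 b2 q1 q3) with h' | h'
        · exact h'
        · exact absurd (hiff.2 h') (lt_asymm h)
    have hA : (N.filter fun v => ∃ u, G.Adj v u ∧ X u < X v ∧ Y u < Y v).card ≤ 1 := by
      rw [Finset.card_le_one]
      intro v hv w hw
      rw [Finset.mem_filter] at hv hw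
      by_contra hvw
      rcases lt_trichotomy (X v) (X w) with h | h | h
      · rcases key v hv.1 w hw.1 h with h1 | h1
        · exact h1.1 hv.2
        · exact h1.2 hw.2
      · exact hvw (hX h)
      · rcases key w hw.1 v hv.1 h with h1 | h1
        · exact h1.1 hw.2
        · exact h1.2 hv.2
    have hB : (N.filter fun v => ∃ u, G.Adj v u ∧ X v < X u ∧ Y v < Y u).card ≤ 1 := by
      rw [Finset.card_le_one]
      intro v hv w hw
      rw [Finset.mem_filter] at hv hw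
      by_contra hvw
      rcases lt_trichotomy (X v) (X w) with h | h | h
      · rcases key v hv.1 w hw.1 h with h1 | h1
        · exact h1.2 hw.2
        · exact h1.1 hv.2
      · exact hvw (hX h)
      · rcases key w hw.1 v hv.1 h with h1 | h1
        · exact h1.2 hv.2
        · exact h1.1 hw.2
    set A := N.filter fun v => ∃ u, G.Adj v u ∧ X u < X v ∧ Y u < Y v with hAd
    set B := N.filter fun v => ∃ u, G.Adj v u ∧ X v < X u ∧ Y v < Y u with hBd
    have h3 : ∀ v ∈ N \ (A ∪ B), 3 ≤ 3 * cnt (fun u => G.Adj v u ∧ X u < X v ∧ Y u < Y v) +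
        cnt (fun u => G.Adj v u ∧ X u < X v ∧ Y v < Y u) +
        cnt (fun u => G.Adj v u ∧ X v < X u ∧ Y u < Y v) := by
      intro v hv
      rw [Finset.mem_sdiff, Finset.mem_union, not_or] at hv
      obtain ⟨hvN, hvA, hvB⟩ := hv
      have h1 : ¬ ∃ u, G.Adj v u ∧ X u < X v ∧ Y u < Y v := fun h =>
        hvA (Finset.mem_filter.2 ⟨hvN, h⟩)
      have h2 : ¬ ∃ u, G.Adj v u ∧ X v < X u ∧ Y v < Y u := fun h =>
        hvB (Finset.mem_filter.2 ⟨hvN, h⟩)
      have h4 := three_nbrs hX hgp (hN v hvN)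
      have h5 : cnt (fun u => G.Adj v u) ≤
          cnt (fun u => G.Adj v u ∧ X u < X v ∧ Y v < Y u) +
          cnt (fun u => G.Adj v u ∧ X v < X u ∧ Y u < Y v) := by
        refine GG_cnt_le _ _ _ ?_
        intro u hu'
        rcases lt_trichotomy (X u) (X v) with hx | hx | hx
        · rcases lt_trichotomy (Y u) (Y v) with hy | hy | hy
          · exact absurd ⟨u, hu', hx, hy⟩ h1
          · exact absurd (hY hy).symm hu'.ne
          · exact Or.inl ⟨hu', hx, hy⟩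
        · exact absurd (hX hx).symm hu'.ne
        · rcases lt_trichotomy (Y u) (Y v) with hy | hy | hy
          · exact Or.inr ⟨hu', hx, hy⟩
          · exact absurd (hY hy).symm hu'.ne
          · exact absurd ⟨u, hu', hx, hy⟩ h2
      omega
    have h6 : 3 * (N \ (A ∪ B)).card ≤
        ∑ v ∈ N, (3 * cnt (fun u => G.Adj v u ∧ X u < X v ∧ Y u < Y v) +
        cnt (fun u => G.Adj v u ∧ X u < X v ∧ Y v < Y u) +
        cnt (fun u => G.Adj v u ∧ X v < X u ∧ Y u < Y v)) := by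
      calc 3 * (N \ (A ∪ B)).card = ∑ v ∈ N \ (A ∪ B), 3 := by
            rw [Finset.sum_const, smul_eq_mul, mul_comm]
        _ ≤ ∑ v ∈ N \ (A ∪ B), (3 * cnt (fun u => G.Adj v u ∧ X u < X v ∧ Y u < Y v) +
            cnt (fun u => G.Adj v u ∧ X u < X v ∧ Y v < Y u) +
            cnt (fun u => G.Adj v u ∧ X v < X u ∧ Y u < Y v)) := Finset.sum_le_sum h3
        _ ≤ _ := Finset.sum_le_sum_of_subset Finset.sdiff_subset
    have h7 : N.card ≤ (N \ (A ∪ B)).card + (A ∪ B).card := by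
      have := Finset.le_card_sdiff (A ∪ B) N
      omega
    have h8 : (A ∪ B).card ≤ 2 := (Finset.card_union_le _ _).trans (by omega)
    omega
  · -- every vertex of `N` has a south-west neighbour
    have h3 : ∀ v ∈ N, 3 ≤ 3 * cnt (fun u => G.Adj v u ∧ X u < X v ∧ Y u < Y v) +
        cnt (fun u => G.Adj v u ∧ X u < X v ∧ Y v < Y u) +
        cnt (fun u => G.Adj v u ∧ X v < X u ∧ Y u < Y v) := by
      intro v hv
      have h1 : ∃ u, G.Adj v u ∧ X u < X v ∧ Y u < Y v := by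
        by_contra h
        exact hst ⟨v, hv, GG_st_of_no_sw hX hY (hN v hv) h⟩
      obtain ⟨u, hu⟩ := h1
      have h2 : 1 ≤ cnt (fun u => G.Adj v u ∧ X u < X v ∧ Y u < Y v) :=
        GG_cnt_pos (P := fun u => G.Adj v u ∧ X u < X v ∧ Y u < Y v) hu
      omega
    have h4 := Finset.sum_le_sum h3
    rw [Finset.sum_const, smul_eq_mul, mul_comm] at h4
    omega

end Helper24.GT
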